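import Pool.Agent.MWGX.StmtsA

/-!
# MWGX, row SKZ: explicit words for `KZ`
-/

set_option autoImplicit false

namespace Pool.Agent.MWGX.H60

open Pool.Agent.Helper14_MV Pool.Agent.Helper2_MV
open Pool.Agent.MWK (pre)
open Pool.Agent.MWGN (nn)
open Pool.Agent.MWGR (X)
open Pool.Agent.MWGX

theorem nn_split {w A B : List ℕ} {q : ℕ} (hw : w = A ++ q :: B) (h : q ∉ A) (c : ℕ) :
    nn w c q = A.count c := by
  unfold nn
  rw [hw, MWK.pre_split h]

theorem cX (k c : ℕ) : (X k).count c = if c = 0 then k else 0 := by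
  rw [List.count_replicate]
  by_cases h : c = 0
  · simp [h]
  · simp [h, Ne.symm h]

theorem skz : SkzStmt := by
  intro n δ hn hδ u v hu hv
  have u1 : u = X n ++ 1 :: (X (n + 1) ++ 2 :: (X n ++ [3, 1, 4, 2, 5, 4])) := hu
  have u2 : u = (X n ++ 1 :: X (n + 1)) ++ 2 :: (X n ++ [3, 1, 4, 2, 5, 4]) := by
    rw [hu]; simp
  have u3 : u = (X n ++ 1 :: (X (n + 1) ++ 2 :: X n)) ++ 3 :: [1, 4, 2, 5, 4] := by
    rw [hu]; simp
  have u4 : u = (X n ++ 1 :: (X (n + 1) ++ 2 :: (X n ++ [3, 1]))) ++ 4 :: [2, 5, 4] := by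
    rw [hu]; simp
  have u5 : u = (X n ++ 1 :: (X (n + 1) ++ 2 :: (X n ++ [3, 1, 4, 2]))) ++ 5 :: [4] := by
    rw [hu]; simp
  have m1 : 1 ∉ X n := by simp [List.mem_replicate]
  have m2 : 2 ∉ X n ++ 1 :: X (n + 1) := by simp [List.mem_replicate]
  have m3 : 3 ∉ X n ++ 1 :: (X (n + 1) ++ 2 :: X n) := by simp [List.mem_replicate]
  have m4 : 4 ∉ X n ++ 1 :: (X (n + 1) ++ 2 :: (X n ++ [3, 1])) := by simp [List.mem_replicate]
  have m5 : 5 ∉ X n ++ 1 :: (X (n + 1) ++ 2 :: (X n ++ [3, 1, 4, 2])) := by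
    simp [List.mem_replicate]
  have n1 := fun c => nn_split u1 m1 c
  have n2 := fun c => nn_split u2 m2 c
  have n3 := fun c => nn_split u3 m3 c
  have n4 := fun c => nn_split u4 m4 c
  have n5 := fun c => nn_split u5 m5 c
  have cu : ∀ c, u.count c = (X n ++ 1 :: (X (n + 1) ++ 2 :: (X n ++ [3, 1, 4, 2, 5, 4]))).count c :=
    fun c => by rw [hu]
  simp only [List.count_append, List.count_cons, List.count_nil, cX] at n1 n2 n3 n4 n5 cu
  refine ⟨⟨?_, ?_, ?_, ?_, ?_, ?_, ?_, ?_, ?_, ?_, ?_, ?_, ?_, ?_, ?_, ?_⟩, ?_, ?_, ?_, ?_⟩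
  · rw [cu]; simp
  · rw [cu]; simp
  · rw [n3]; simp
  · rw [cu]; simp; omega
  · rw [n3, cu]; simp
  · rw [cu]; simp
  · rw [n3]; simp
  · rw [n5, cu]; simp
  · rw [cu]; simp
  · rw [n3]; simp
  · rw [n5, cu]; simp
  · rw [cu]; simp
  · rw [n3]; simp
  · rw [n5]; simp
  · rw [n4]; simp
  · rw [n4]; simp
  · unfold Az
    rw [n4, cu]; simp
  · rw [n2]; simp
  · unfold Lb
    have h1 : nn u 0 2 = n + (n + 1) := by rw [n2]; simp
    have h2 : nn u 0 1 = n := by rw [n1]; simp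
    rw [h1, h2]
    have h3 : n ≡ 0 [MOD δ] := Nat.modEq_zero_iff_dvd.2 hδ
    have h4 := h3.add_right (n + 1)
    rw [Nat.zero_add] at h4
    exact h4
  · have v2 : v = X (n + 1) ++ 2 :: (X (n + (n - 1) * 1) ++ 1 :: (X (n + 1) ++
        [3, 1, 4, 2, 5, 4])) := hv
    rw [nn_split v2 (by simp [List.mem_replicate]) 1, cX]
    simp

end Pool.Agent.MWGX.H60
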